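import Pool.Agent.N192.MO.StmA
import Pool.Agent.N192.GP.Iso
import Pool.Agent.Y102.SP.ColMain

set_option autoImplicit false

/-!
Project MO (helper192), part SIM: the Lie algebra of one colour is simple and perfect, also for
three generators.
-/

open Module

namespace Pool.Agent.N595.MO

open Pool.Agent.Y102 Pool.Agent.Y102.SP

section Three

variable {U : Type} [AddCommGroup U] [Module ℂ U] {F : Fin 3 → Module.End ℂ U}

/-- `[F 0 F 1, F 1 F 2] = 2 F 0 F 2` -/
theorem br1 (hF : CE F) : F 0 * F 1 * (F 1 * F 2) - F 1 * F 2 * (F 0 * F 1) =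
    (2 : ℂ) • (F 0 * F 2) :=
  simple_br hF (by decide) (by decide) (by decide)

/-- `[F 1 F 2, F 0 F 2] = 2 F 0 F 1` -/
theorem br2 (hF : CE F) : F 1 * F 2 * (F 0 * F 2) - F 0 * F 2 * (F 1 * F 2) =
    (2 : ℂ) • (F 0 * F 1) := by
  have h := simple_br hF (i := 0) (k := 2) (j := 1) (by decide) (by decide) (by decide)
  rw [hF.anti 2 1 (by decide)] at h
  rw [← h]
  simp only [mul_neg, neg_mul]
  abel

/-- `[F 0 F 2, F 0 F 1] = 2 F 1 F 2` -/
theorem br3 (hF : CE F) : F 0 * F 2 * (F 0 * F 1) - F 0 * F 1 * (F 0 * F 2) =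
    (2 : ℂ) • (F 1 * F 2) := by
  have h := simple_br hF (i := 1) (k := 0) (j := 2) (by decide) (by decide) (by decide)
  rw [hF.anti 1 0 (by decide)] at h
  rw [← h]
  simp only [mul_neg, neg_mul]
  abel

theorem so3_span (hF : CE F) {w : Module.End ℂ U} (hw : w ∈ soE F) :
    ∃ a b c : ℂ, w = a • (F 0 * F 1) + b • (F 1 * F 2) + c • (F 0 * F 2) := by
  induction hw using Submodule.span_induction with
  | mem w hw =>
    obtain ⟨i, j, hij, rfl⟩ := hw
    fin_cases i <;> fin_cases j
    · exact absurd rfl hij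
    · exact ⟨1, 0, 0, by simp⟩
    · exact ⟨0, 0, 1, by simp⟩
    · refine ⟨-1, 0, 0, ?_⟩
      simp only [Fin.mk_one, Fin.zero_eta]
      rw [hF.anti 1 0 (by decide)]
      simp
    · exact absurd rfl hij
    · exact ⟨0, 1, 0, by simp⟩
    · refine ⟨0, 0, -1, ?_⟩
      simp only [Fin.reduceFinMk, Fin.zero_eta]
      rw [hF.anti 2 0 (by decide)]
      simp
    · refine ⟨0, -1, 0, ?_⟩
      simp only [Fin.reduceFinMk, Fin.mk_one]
      rw [hF.anti 2 1 (by decide)]
      simp
    · exact absurd rfl hij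
  | zero => exact ⟨0, 0, 0, by simp⟩
  | add u v _ _ hu hv =>
    obtain ⟨a, b, c, rfl⟩ := hu
    obtain ⟨a', b', c', rfl⟩ := hv
    exact ⟨a + a', b + b', c + c', by module⟩
  | smul t u _ hu =>
    obtain ⟨a, b, c, rfl⟩ := hu
    exact ⟨t * a, t * b, t * c, by module⟩

theorem so3_simple (hF : CE F) (J : Submodule ℂ (Module.End ℂ U)) (hJ : J ≤ soE F)
    (hbr : ∀ x ∈ soE F, ∀ y ∈ J, x * y - y * x ∈ J) : J = ⊥ ∨ J = soE F := by
  by_cases hJ0 : J = ⊥
  · exact Or.inl hJ0
  right
  refine le_antisymm hJ ?_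
  obtain ⟨X, hX⟩ : ∃ X, X = F 0 * F 1 := ⟨_, rfl⟩
  obtain ⟨Y, hY⟩ : ∃ Y, Y = F 1 * F 2 := ⟨_, rfl⟩
  obtain ⟨Z, hZ⟩ : ∃ Z, Z = F 0 * F 2 := ⟨_, rfl⟩
  have e1 : X * Y - Y * X = (2 : ℂ) • Z := by rw [hX, hY, hZ]; exact br1 hF
  have e2 : Y * Z - Z * Y = (2 : ℂ) • X := by rw [hX, hY, hZ]; exact br2 hF
  have e3 : Z * X - X * Z = (2 : ℂ) • Y := by rw [hX, hY, hZ]; exact br3 hF
  have mX : X ∈ soE F := Submodule.subset_span ⟨0, 1, by decide, hX⟩
  have mY : Y ∈ soE F := Submodule.subset_span ⟨1, 2, by decide, hY⟩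
  have mZ : Z ∈ soE F := Submodule.subset_span ⟨0, 2, by decide, hZ⟩
  have half : ∀ w : Module.End ℂ U, (2 : ℂ) • w ∈ J → w ∈ J := fun w h => by
    have := J.smul_mem (1 / 2 : ℂ) h
    rwa [smul_smul, one_div_mul_cancel two_ne_zero, one_smul] at this
  -- one generator gives all
  have fX : X ∈ J → Y ∈ J ∧ Z ∈ J := fun h => by
    refine ⟨half _ ?_, half _ ?_⟩
    · rw [← e3]
      exact hbr Z mZ X h
    · have := J.neg_mem (hbr Y mY X h)
      rw [neg_sub, e1] at this
      exact this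
  have fY : Y ∈ J → X ∈ J := fun h => by
    refine half _ ?_
    have := J.neg_mem (hbr Z mZ Y h)
    rw [neg_sub, e2] at this
    exact this
  have key : X ∈ J := by
    obtain ⟨w, hw, hw0⟩ := J.ne_bot_iff.1 hJ0
    obtain ⟨a, b, c, hwe⟩ := so3_span hF (hJ hw)
    rw [← hX, ← hY, ← hZ] at hwe
    have s1 : X * w - w * X = (2 * b) • Z + (-(2 * c)) • Y := by
      have : X * w - w * X = b • (X * Y - Y * X) - c • (Z * X - X * Z) := by
        rw [hwe]
        simp only [mul_add, add_mul, mul_smul_comm, smul_mul_assoc]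
        module
      rw [this, e1, e3]
      module
    have s2 : Y * (X * w - w * X) - (X * w - w * X) * Y = (4 * b) • X := by
      have : Y * (X * w - w * X) - (X * w - w * X) * Y = (2 * b) • (Y * Z - Z * Y) := by
        rw [s1]
        simp only [mul_add, add_mul, mul_smul_comm, smul_mul_assoc]
        module
      rw [this, e2]
      module
    have s3 : Z * (X * w - w * X) - (X * w - w * X) * Z = (4 * c) • X := by
      have : Z * (X * w - w * X) - (X * w - w * X) * Z = (2 * c) • (Y * Z - Z * Y) := by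
        rw [s1]
        simp only [mul_add, add_mul, mul_smul_comm, smul_mul_assoc]
        module
      rw [this, e2]
      module
    have s4 : Y * w - w * Y = (-(2 * a)) • Z + (2 * c) • X := by
      have : Y * w - w * Y = (-a) • (X * Y - Y * X) + c • (Y * Z - Z * Y) := by
        rw [hwe]
        simp only [mul_add, add_mul, mul_smul_comm, smul_mul_assoc]
        module
      rw [this, e1, e2]
      module
    have s5 : X * (Y * w - w * Y) - (Y * w - w * Y) * X = (4 * a) • Y := by
      have : X * (Y * w - w * Y) - (Y * w - w * Y) * X = (2 * a) • (Z * X - X * Z) := by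
        rw [s4]
        simp only [mul_add, add_mul, mul_smul_comm, smul_mul_assoc]
        module
      rw [this, e3]
      module
    have scal : ∀ (t : ℂ) (z : Module.End ℂ U), t ≠ 0 → (4 * t) • z ∈ J → z ∈ J := by
      intro t z ht h
      have := J.smul_mem (4 * t)⁻¹ h
      rwa [smul_smul, inv_mul_cancel₀ (mul_ne_zero (by norm_num : (4 : ℂ) ≠ 0) ht), one_smul] at this
    by_cases hb : b = 0
    · by_cases hc : c = 0
      · have ha : a ≠ 0 := by
          rintro rfl
          rw [hb, hc] at hwe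
          simp at hwe
          exact hw0 hwe
        refine fY (scal a Y ha ?_)
        rw [← s5]
        exact hbr X mX _ (hbr Y mY w hw)
      · refine scal c X hc ?_
        rw [← s3]
        exact hbr Z mZ _ (hbr X mX w hw)
    · refine scal b X hb ?_
      rw [← s2]
      exact hbr Y mY _ (hbr X mX w hw)
  intro w hw
  obtain ⟨a, b, c, hwe⟩ := so3_span hF hw
  rw [← hX, ← hY, ← hZ] at hwe
  rw [hwe]
  exact J.add_mem (J.add_mem (J.smul_mem _ key) (J.smul_mem _ (fX key).1))
    (J.smul_mem _ (fX key).2)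

end Three

/-- Part SIM. -/
theorem sim : Pool.Agent.N192.GP.S_SIM := by
  intro U _ _ _ _ N k E c hE s hs
  rcases hs with hs | hs
  · obtain ⟨e, he, he1, he2⟩ := N192.GP.exists_enum hs
    have hF := N192.GP.enum_CE hE he
    have hso := N192.GP.enum_soE (E := E) he he1 he2
    refine ⟨fun J hJ hbr => ?_, ?_⟩
    · rw [← hso] at hJ hbr ⊢
      exact so3_simple hF J hJ hbr
    · rw [← hso]
      exact so_perfect le_rfl hF
  · exact ⟨ColMain_simple hE hs, ColMain_perfect hE hs⟩

end Pool.Agent.N595.MO
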